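import Pool.Agent.Helper69.UX.StD

set_option autoImplicit false
set_option maxHeartbeats 400000

namespace Pool.Agent.Helper37.UX

open Finset Filter Pool.Agent.Helper82.CN Pool.Agent.Helper11.PV Pool.Agent.Helper69.VX
  Pool.Agent.Helper69.UX

lemma FF_nonneg {p : ℝ} (hp1 : p < 1) (n T R : ℕ) {κ : ℕ → ℝ} (hκ : ∀ v, 0 ≤ κ v) (c : ℕ) :
    0 ≤ FF p n T R κ c := by
  unfold FF gf
  apply Finset.sum_nonneg
  intro r _
  apply mul_nonneg
  · apply div_nonneg
    · apply mul_nonneg (by positivity)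
      apply pow_nonneg
      apply div_nonneg zero_le_one
      linarith
    · positivity
  · apply Finset.sum_nonneg
    intro v _
    have := hκ v
    positivity

lemma pw_nonneg {V : Type} {g : ℕ → ℝ} (hg : ∀ v, 0 ≤ g v) (Q : Finset (Finset V)) :
    0 ≤ pw g Q := Finset.prod_nonneg (fun _ _ => hg _)

lemma gf_nonneg {κ : ℕ → ℝ} (hκ : ∀ v, 0 ≤ κ v) (v : ℕ) : 0 ≤ gf κ v := by
  unfold gf
  have := hκ v
  positivity

/-- the maximal block of a class is at most the class -/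
lemma mxb_le {V : Type} [DecidableEq V] (Q : Finset (Finset V)) (A : Finset V) :
    mxb Q A ≤ A.card := by
  unfold mxb
  apply Finset.sup_le
  intro B _
  exact Finset.card_le_card Finset.inter_subset_left

lemma mem_Pt {V : Type} [Fintype V] (P : Finset (Finset V)) : P ∈ Pt V ↔
    (∀ A ∈ P, A.Nonempty) ∧ (∀ A ∈ P, ∀ B ∈ P, A ≠ B → Disjoint A B) ∧
      ∀ v : V, ∃ A ∈ P, v ∈ A := by
  simp only [Pt, Finset.mem_filter, Finset.mem_univ, true_and]

/-- at most `|V|` classes -/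
lemma card_Pt_le' {V : Type} [Fintype V] [DecidableEq V] {P : Finset (Finset V)} (hP : P ∈ Pt V) :
    P.card ≤ Fintype.card V := by
  obtain ⟨h1, h2, h3⟩ := (mem_Pt P).1 hP
  have e1 : (P.biUnion id).card = ∑ A ∈ P, A.card := by
    apply Finset.card_biUnion
    intro A hA B hB hAB
    exact h2 A hA B hB hAB
  have e2 : (P.biUnion id).card ≤ Fintype.card V := Finset.card_le_univ (P.biUnion id)
  have e3 : P.card ≤ ∑ A ∈ P, A.card := by
    rw [Finset.card_eq_sum_ones]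
    exact Finset.sum_le_sum (fun A hA => Finset.card_pos.2 (h1 A hA))
  omega

lemma card_Pt_le {n : ℕ} {P : Finset (Finset (Fin n))} (hP : P ∈ Pt (Fin n)) : P.card ≤ n := by
  have := card_Pt_le' hP
  rwa [Fintype.card_fin] at this

/-- `ph`: `n (Y - ph Y) ≤ m² T² / n` -/
lemma phb (hA : StFAC) {n : ℕ} (hn : 1 ≤ n) {s : ℕ} {m : ℝ} (h : (s : ℝ) ≤ m) (hm : m ≤ n) :
    (n : ℝ) * ((s : ℝ) / n - ph ((s : ℝ) / n)) ≤ m ^ 2 / n := by
  have hn0 : (0 : ℝ) < n := by exact_mod_cast hn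
  have h1 := (hA.2.1 ((s : ℝ) / n) (by positivity) (by rw [div_le_one hn0]; linarith)).1
  calc (n : ℝ) * ((s : ℝ) / n - ph ((s : ℝ) / n)) ≤ n * ((s : ℝ) / n) ^ 2 :=
        mul_le_mul_of_nonneg_left h1 hn0.le
    _ = (s : ℝ) ^ 2 / n := by field_simp
    _ ≤ m ^ 2 / n := by
        apply div_le_div_of_nonneg_right _ hn0.le
        exact pow_le_pow_left₀ (by positivity) h 2

/-- all size facts -/
structure Nu (ε : ℝ) (n T : ℕ) (th X : ℝ) : Prop where
  n1 : 1 ≤ n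
  X1 : 100 ≤ X
  T1 : 1 ≤ T
  TX : (T : ℝ) ^ 3 ≤ X
  TX2 : (T : ℝ) ^ 2 ≤ X
  TX1 : (T : ℝ) ≤ X
  lX : Real.log n ≤ X
  lp : 0 ≤ Real.log n
  X5 : (n : ℝ) ^ (1 - th + ε) * T ≤ n / 2
  X6 : (n : ℝ) ^ (1 / 2 + ε) ≤ (n : ℝ) / 2
  X9 : ((n : ℝ) ^ (1 - th + ε) * T) ^ 2 / n ≤ X ^ 9
  X12 : (n : ℝ) ^ (3 * ε) = X ^ 12
  et : (n : ℝ) ^ (-th + ε) ≤ 1 / 4
  nh : (n : ℝ) * (n : ℝ) ^ (-(1 + th) + ε / 4) ≤ 1
  nk : (n : ℝ) ^ (-th + ε) * (n * (2 * n) * (n : ℝ) ^ (-(1 + th) + ε / 4)) ≤ 2 * X ^ 5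

lemma nu {p ε : ℝ} {n T : ℕ} {th : ℝ} (hε : 0 < ε) (hε1 : ε ≤ 1 / 24)
    (hW : Win p ε n T th) (hS : Siz p (ε / 4) 1 n T th) (hX : 100 ≤ (n : ℝ) ^ (ε / 4)) :
    Nu ε n T th ((n : ℝ) ^ (ε / 4)) := by
  obtain ⟨hw1, hw2, hw3⟩ := hW
  have hT5 : 5 ≤ T := by have := hS.t4.1; omega
  have hn5 : 10 ≤ n := by have := hS.t4.2; omega
  have hn1 : (1 : ℝ) ≤ n := by exact_mod_cast (by omega : 1 ≤ n)
  have hn0 : (0 : ℝ) < n := by linarith
  have hT1 : (1 : ℝ) ≤ T := by exact_mod_cast (by omega : 1 ≤ T)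
  have hl0 : 1 ≤ Real.log n := by
    have h := hS.t0
    have : 1 ≤ 1 / (ε / 4) := by
      rw [le_div_iff₀ (by linarith)]
      linarith
    linarith
  have key : ∀ a b : ℝ, a ≤ b → (n : ℝ) ^ a ≤ (n : ℝ) ^ b := fun a b h =>
    Real.rpow_le_rpow_of_exponent_le hn1 h
  have T8 : ∀ j : ℕ, j ≤ 8 → (T : ℝ) ^ j ≤ (n : ℝ) ^ (ε / 4) := fun j hj =>
    le_trans (pow_le_pow_right₀ hT1 hj) hS.t3
  have hX0 : 0 < (n : ℝ) ^ (ε / 4) := by positivity
  have pX : ∀ k : ℕ, ((n : ℝ) ^ (ε / 4)) ^ k = (n : ℝ) ^ (ε / 4 * k) := fun k => by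
    rw [Real.rpow_mul hn0.le, Real.rpow_natCast]
  have m1 : (n : ℝ) ^ (1 - th + ε) * T ≤ (n : ℝ) ^ (1 / 2 + ε + ε / 4) := by
    rw [Real.rpow_add hn0 (1 / 2 + ε)]
    apply mul_le_mul (key _ _ (by linarith)) (by simpa using T8 1 (by norm_num)) (by positivity)
      (by positivity)
  have m2 : (n : ℝ) ^ (1 / 2 + ε + ε / 4) * 2 ≤ n := by
    have e : (n : ℝ) = (n : ℝ) ^ (1 / 2 + ε + ε / 4) * (n : ℝ) ^ (1 / 2 - ε - ε / 4) := by
      rw [← Real.rpow_add hn0]
      have : 1 / 2 + ε + ε / 4 + (1 / 2 - ε - ε / 4) = 1 := by ring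
      rw [this, Real.rpow_one]
    have e2 : (n : ℝ) ^ (ε / 4) ≤ (n : ℝ) ^ (1 / 2 - ε - ε / 4) := key _ _ (by linarith)
    calc (n : ℝ) ^ (1 / 2 + ε + ε / 4) * 2 ≤
        (n : ℝ) ^ (1 / 2 + ε + ε / 4) * (n : ℝ) ^ (1 / 2 - ε - ε / 4) :=
          mul_le_mul_of_nonneg_left (by linarith) (by positivity)
      _ = n := e.symm
  refine ⟨by omega, hX, by omega, T8 3 (by norm_num), T8 2 (by norm_num),
    by simpa using T8 1 (by norm_num), ?_, by linarith, by linarith, ?_, ?_, ?_, ?_, ?_, ?_⟩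
  · calc Real.log n ≤ Real.log n ^ 8 := by
          simpa using pow_le_pow_right₀ hl0 (show 1 ≤ 8 by norm_num)
      _ ≤ _ := hS.t6
  · have : (n : ℝ) ^ (1 / 2 + ε) ≤ (n : ℝ) ^ (1 / 2 + ε + ε / 4) := key _ _ (by linarith)
    linarith
  · rw [div_le_iff₀ hn0, mul_pow]
    calc ((n : ℝ) ^ (1 - th + ε)) ^ 2 * (T : ℝ) ^ 2 ≤
        ((n : ℝ) ^ (1 / 2 + ε)) ^ 2 * (n : ℝ) ^ (ε / 4) := by
          apply mul_le_mul _ (T8 2 (by norm_num)) (by positivity) (by positivity)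
          exact pow_le_pow_left₀ (by positivity) (key _ _ (by linarith)) 2
      _ = ((n : ℝ) ^ (ε / 4)) ^ 9 * n := by
          rw [pX 9, ← Real.rpow_natCast ((n : ℝ) ^ (1 / 2 + ε)) 2, ← Real.rpow_mul hn0.le,
            ← Real.rpow_add hn0]
          nth_rewrite 3 [← Real.rpow_one (n : ℝ)]
          rw [← Real.rpow_add hn0]
          congr 1
          push_cast
          ring
  · rw [pX 12]
    congr 1
    push_cast
    ring
  · have e : (n : ℝ) ^ (-th + ε) * (n : ℝ) ^ (th - ε) = 1 := by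
      rw [← Real.rpow_add hn0]
      have : -th + ε + (th - ε) = 0 := by ring
      rw [this, Real.rpow_zero]
    have e2 : (n : ℝ) ^ (ε / 4) ≤ (n : ℝ) ^ (th - ε) := key _ _ (by linarith)
    have e3 : 0 < (n : ℝ) ^ (-th + ε) := by positivity
    nlinarith
  · nth_rewrite 1 [← Real.rpow_one (n : ℝ)]
    rw [← Real.rpow_add hn0]
    exact Real.rpow_le_one_of_one_le_of_nonpos hn1 (by linarith)
  · rw [pX 5]
    have e : (n : ℝ) ^ (-th + ε) * (n * (2 * n) * (n : ℝ) ^ (-(1 + th) + ε / 4)) =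
        2 * ((n : ℝ) ^ (-th + ε) * (n : ℝ) ^ (2 : ℝ) * (n : ℝ) ^ (-(1 + th) + ε / 4)) := by
      rw [show (2 : ℝ) = ((2 : ℕ) : ℝ) by norm_num, Real.rpow_natCast]
      push_cast
      ring
    rw [e, ← Real.rpow_add hn0, ← Real.rpow_add hn0]
    apply mul_le_mul_of_nonneg_left _ (by norm_num)
    apply key
    push_cast
    linarith

open Classical in
/-- sum over `(I, N)` -/
lemma main_sum {n : ℕ} (S : Finset (Finset (Finset (Fin n)))) (P : Finset (Finset (Fin n))) (R : ℕ)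
    (f : Finset (Finset (Fin n)) → ℝ) (hf : ∀ Q, 0 ≤ f Q) (m E : ℝ) (g : Finset (Fin n) → ℝ)
    (hg : ∀ C, 0 ≤ g C) (hE : 0 ≤ E)
    (h1 : ∀ I ⊆ P, (I.card : ℝ) ≤ m → ∀ N : ℕ,
      ∑ Q ∈ S.filter (fun Q => bigS R P Q = I ∧ NR R P Q = N), f Q ≤ E * ∏ C ∈ I, g C) :
    ∑ Q ∈ S.filter (fun Q => ((bigS R P Q).card : ℝ) ≤ m), f Q ≤
      ((n : ℝ) + 1) * E * Real.exp (∑ C ∈ P, g C) := by
  set J : Finset (Finset (Finset (Fin n))) := P.powerset.filter (fun I => (I.card : ℝ) ≤ m) with hJ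
  have hmap : ∀ Q ∈ S.filter (fun Q => ((bigS R P Q).card : ℝ) ≤ m),
      (bigS R P Q, NR R P Q) ∈ J ×ˢ range (n + 1) := by
    intro Q hQ
    rw [Finset.mem_filter] at hQ
    rw [Finset.mem_product, hJ, Finset.mem_filter, Finset.mem_powerset, Finset.mem_range]
    refine ⟨⟨Finset.filter_subset _ _, hQ.2⟩, ?_⟩
    show NR R P Q < n + 1
    unfold NR
    rw [Fintype.card_fin]
    omega
  rw [← Finset.sum_fiberwise_of_maps_to hmap, Finset.sum_product]
  have hin : ∀ I ∈ J, ∀ N ∈ range (n + 1),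
      ∑ Q ∈ (S.filter (fun Q => ((bigS R P Q).card : ℝ) ≤ m)).filter
        (fun Q => (bigS R P Q, NR R P Q) = (I, N)), f Q ≤ E * ∏ C ∈ I, g C := by
    intro I hI N _
    rw [hJ, Finset.mem_filter, Finset.mem_powerset] at hI
    refine le_trans ?_ (h1 I hI.1 hI.2 N)
    apply Finset.sum_le_sum_of_subset_of_nonneg
    · intro Q hQ
      rw [Finset.mem_filter, Finset.mem_filter] at hQ
      rw [Finset.mem_filter]
      have := hQ.2
      rw [Prod.mk.injEq] at this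
      exact ⟨hQ.1.1, this⟩
    · intro Q _ _
      exact hf Q
  calc _ ≤ ∑ I ∈ J, ∑ N ∈ range (n + 1), E * ∏ C ∈ I, g C :=
        Finset.sum_le_sum (fun I hI => Finset.sum_le_sum (fun N hN => hin I hI N hN))
    _ = ((n : ℝ) + 1) * E * ∑ I ∈ J, ∏ C ∈ I, g C := by
        rw [Finset.mul_sum]
        apply Finset.sum_congr rfl
        intro I _
        rw [Finset.sum_const, Finset.card_range, nsmul_eq_mul]
        push_cast
        ring
    _ ≤ ((n : ℝ) + 1) * E * Real.exp (∑ C ∈ P, g C) := by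
        apply mul_le_mul_of_nonneg_left _ (by positivity)
        calc ∑ I ∈ J, ∏ C ∈ I, g C ≤ ∑ I ∈ P.powerset, ∏ C ∈ I, g C := by
              apply Finset.sum_le_sum_of_subset_of_nonneg (Finset.filter_subset _ _)
              intro I _ _
              exact Finset.prod_nonneg (fun C _ => hg C)
          _ = ∏ C ∈ P, (1 + g C) := (Finset.prod_one_add _).symm
          _ ≤ ∏ C ∈ P, Real.exp (g C) := by
              apply Finset.prod_le_prod
              · intro C _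
                have := hg C
                linarith
              · intro C _
                have := Real.add_one_le_exp (g C)
                linarith
          _ = _ := (Real.exp_sum _ _).symm

/-- `NR` is large -/
lemma NR_ge {n : ℕ} {P Q : Finset (Finset (Fin n))} {R T : ℕ} (hPT : ∀ C ∈ P, C.card ≤ T) :
    (n : ℝ) - (bigS R P Q).card * T ≤ NR R P Q := by
  have h : ∑ A ∈ bigS R P Q, mxb Q A ≤ (bigS R P Q).card * T := by
    rw [← smul_eq_mul, ← Finset.sum_const]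
    apply Finset.sum_le_sum
    intro A hA
    exact (mxb_le Q A).trans (hPT A (Finset.mem_of_mem_filter A hA))
  have h2 : n ≤ NR R P Q + (bigS R P Q).card * T := by
    unfold NR
    rw [Fintype.card_fin]
    omega
  have h3 : (n : ℝ) ≤ NR R P Q + (bigS R P Q).card * T := by exact_mod_cast h2
  linarith

/-- the sum of the factors -/
lemma sumFF {n T kT : ℕ} {th ε η X A : ℝ} {P : Finset (Finset (Fin n))} {F : ℕ → ℝ} {a : ℝ}
    (hN : Nu ε n T th X) (hPn : P.card ≤ n) (hF0 : ∀ c, 0 ≤ F c)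
    (hPT : ∀ C ∈ P, C.card ≤ T) (hkT : (P.filter (fun C => C.card = T)).card = kT)
    (h1 : ∀ c, c < T → F c ≤ (n : ℝ) ^ (-(1 + th) + ε / 4))
    (h2 : F T ≤ a + (n : ℝ) ^ (-(1 + th) + ε / 4)) (ha : A = kT * a)
    (ha2 : A ≤ n * (2 * n) * (n : ℝ) ^ (-(1 + th) + ε / 4)) (ha0 : 0 ≤ A)
    (hη0 : 0 ≤ η) (hη1 : η ≤ (n : ℝ) ^ (-th + ε)) :
    ∑ C ∈ P, Real.exp (2 * η) * F C.card ≤ A + 2 + 8 * X ^ 5 := by
  have hn1 := hN.n1
  have hn0 : (0 : ℝ) < n := by exact_mod_cast (by omega : 0 < n)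
  set z : ℝ := (n : ℝ) ^ (-(1 + th) + ε / 4) with hz
  have hz0 : 0 ≤ z := by positivity
  have hFb : ∑ C ∈ P, F C.card ≤ A + 1 := by
    have e1 : ∀ C ∈ P, F C.card ≤ (if C.card = T then a else 0) + z := by
      intro C hC
      rcases lt_or_eq_of_le (hPT C hC) with h | h
      · rw [if_neg (by omega)]
        have := h1 _ h
        linarith
      · rw [if_pos h, h]
        exact h2
    calc ∑ C ∈ P, F C.card ≤ ∑ C ∈ P, ((if C.card = T then a else 0) + z) :=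
          Finset.sum_le_sum e1
      _ = A + P.card * z := by
          rw [Finset.sum_add_distrib, ← Finset.sum_filter, Finset.sum_const, Finset.sum_const,
            hkT, nsmul_eq_mul, nsmul_eq_mul, ha]
      _ ≤ A + 1 := by
          have h3 : (P.card : ℝ) * z ≤ n * z :=
            mul_le_mul_of_nonneg_right (by exact_mod_cast hPn) hz0
          have h4 := hN.nh
          linarith
  have he : Real.exp (2 * η) ≤ 1 + 4 * η := by
    have h3 : η ≤ 1 / 4 := hη1.trans hN.et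
    have h4 := Real.add_one_le_exp (-(2 * η))
    have h5 : Real.exp (2 * η) * Real.exp (-(2 * η)) = 1 := by
      rw [← Real.exp_add, add_neg_cancel, Real.exp_zero]
    have h6 := Real.exp_pos (2 * η)
    have h7 : Real.exp (2 * η) * (1 - 2 * η) ≤ 1 := by
      rw [← h5]
      exact mul_le_mul_of_nonneg_left (by linarith) h6.le
    by_contra hcon
    push Not at hcon
    have h8 : (1 + 4 * η) * (1 - 2 * η) < Real.exp (2 * η) * (1 - 2 * η) :=
      mul_lt_mul_of_pos_right hcon (by linarith)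
    nlinarith
  have hS0 : 0 ≤ ∑ C ∈ P, F C.card := Finset.sum_nonneg (fun C _ => hF0 _)
  rw [← Finset.mul_sum]
  calc Real.exp (2 * η) * ∑ C ∈ P, F C.card ≤ (1 + 4 * η) * ∑ C ∈ P, F C.card :=
        mul_le_mul_of_nonneg_right he hS0
    _ ≤ (1 + 4 * η) * (A + 1) := mul_le_mul_of_nonneg_left hFb (by linarith)
    _ = A + 1 + 4 * (η * A) + 4 * η := by ring
    _ ≤ A + 1 + 4 * (2 * X ^ 5) + 1 := by
        have h3 : η * A ≤ 2 * X ^ 5 := by
          refine le_trans ?_ hN.nk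
          exact mul_le_mul hη1 ha2 ha0 (by positivity)
        have h4 : η ≤ 1 / 4 := hη1.trans hN.et
        linarith
    _ = A + 2 + 8 * X ^ 5 := by ring

/-- one pair `(I, N)` -/
lemma one {p ε : ℝ} (hε : 0 < ε) (hp : 0 < p) (hp1 : p < 1) (hA : StFAC) {n T N : ℕ} {th η X : ℝ}
    {κ : ℕ → ℝ} {P I : Finset (Finset (Fin n))} (hN : Nu ε n T th X) (hκ : ∀ v, 0 ≤ κ v)
    (hPT : ∀ C ∈ P, C.card ≤ T) (hI : I ⊆ P) (hIm : (I.card : ℝ) ≤ (n : ℝ) ^ (1 - th + ε))
    (S : Finset (Finset (Finset (Fin n))))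
    (h1 : 1 / (1 - p) ≤ 1 / (1 - p) → 1 / (1 - p) ≤ Real.exp ((1 + ε / 8) * bb p) →
      (n : ℝ) ^ (1 / 2 + ε) ≤ N →
      ∑ Q ∈ S.filter (fun Q => bigS (RR ε T) P Q = I ∧ NR (RR ε T) P Q = N),
        pw (gf κ) Q * (1 / (1 - p)) ^ ovB (RR ε T) P Q *
          (1 / (1 - p)) ^ (ovl P Q - ovB (RR ε T) P Q) ≤
      (n.factorial : ℝ) * Real.exp ((T : ℝ) ^ 3 + 1 + Real.log n + ∑ v ∈ range (T + 2), κ v +
        n * (((∑ C ∈ I, C.card : ℕ) : ℝ) / n - ph (((∑ C ∈ I, C.card : ℕ) : ℝ) / n))) *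
        ∏ C ∈ I, FF p n T (RR ε T) κ C.card) :
    ∑ Q ∈ S.filter (fun Q => bigS (RR ε T) P Q = I ∧ NR (RR ε T) P Q = N),
      pw (gf κ) Q * (1 / (1 - p)) ^ ovl P Q * Real.exp (2 * η * (bigS (RR ε T) P Q).card) ≤
    ((n.factorial : ℝ) * Real.exp ((T : ℝ) ^ 3 + 1 + Real.log n + ∑ v ∈ range (T + 2), κ v +
      X ^ 9)) * ∏ C ∈ I, (Real.exp (2 * η) * FF p n T (RR ε T) κ C.card) := by
  have hn1 := hN.n1
  have hn0 : (0 : ℝ) < n := by exact_mod_cast (by omega : 0 < n)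
  have hq : 0 < 1 - p := by linarith
  have hb1 : 1 ≤ 1 / (1 - p) := by
    rw [le_div_iff₀ hq]
    linarith
  have hb0 : 0 < 1 / (1 - p) := by linarith
  have hF0 : ∀ c, 0 ≤ FF p n T (RR ε T) κ c := fun c => FF_nonneg hp1 n T _ hκ c
  have hR0 : 0 ≤ ((n.factorial : ℝ) * Real.exp ((T : ℝ) ^ 3 + 1 + Real.log n +
      ∑ v ∈ range (T + 2), κ v + X ^ 9)) *
      ∏ C ∈ I, (Real.exp (2 * η) * FF p n T (RR ε T) κ C.card) := by
    apply mul_nonneg (by positivity)
    apply Finset.prod_nonneg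
    intro C _
    have := hF0 C.card
    positivity
  have hIT : (I.card : ℝ) * T ≤ (n : ℝ) ^ (1 - th + ε) * T :=
    mul_le_mul_of_nonneg_right hIm (by positivity)
  by_cases hNN : (n : ℝ) ^ (1 / 2 + ε) ≤ N
  · have hbb : 1 / (1 - p) ≤ Real.exp ((1 + ε / 8) * bb p) := by
      have e1 : 0 ≤ bb p := Real.log_nonneg hb1
      calc 1 / (1 - p) = Real.exp (bb p) := (Real.exp_log hb0).symm
        _ ≤ Real.exp ((1 + ε / 8) * bb p) := by
            apply Real.exp_le_exp.2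
            nlinarith
    have h2 := h1 le_rfl hbb hNN
    have hs : ((∑ C ∈ I, C.card : ℕ) : ℝ) ≤ (n : ℝ) ^ (1 - th + ε) * T := by
      refine le_trans ?_ hIT
      have : ∑ C ∈ I, C.card ≤ I.card * T := by
        rw [← smul_eq_mul, ← Finset.sum_const]
        exact Finset.sum_le_sum (fun A hA' => hPT A (hI hA'))
      exact_mod_cast this
    have h3 := phb hA hN.n1 hs (by linarith [hN.X5])
    have h4 := h3.trans hN.X9
    calc ∑ Q ∈ S.filter (fun Q => bigS (RR ε T) P Q = I ∧ NR (RR ε T) P Q = N),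
        pw (gf κ) Q * (1 / (1 - p)) ^ ovl P Q * Real.exp (2 * η * (bigS (RR ε T) P Q).card)
        ≤ ∑ Q ∈ S.filter (fun Q => bigS (RR ε T) P Q = I ∧ NR (RR ε T) P Q = N),
          (pw (gf κ) Q * (1 / (1 - p)) ^ ovB (RR ε T) P Q *
          (1 / (1 - p)) ^ (ovl P Q - ovB (RR ε T) P Q)) * Real.exp (2 * η * I.card) := by
          apply Finset.sum_le_sum
          intro Q hQ
          rw [Finset.mem_filter] at hQ
          rw [hQ.2.1]
          apply mul_le_mul_of_nonneg_right _ (Real.exp_pos _).le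
          rw [mul_assoc, ← pow_add]
          apply mul_le_mul_of_nonneg_left _ (pw_nonneg (gf_nonneg hκ) Q)
          apply pow_le_pow_right₀ hb1
          omega
      _ = (∑ Q ∈ S.filter (fun Q => bigS (RR ε T) P Q = I ∧ NR (RR ε T) P Q = N),
          pw (gf κ) Q * (1 / (1 - p)) ^ ovB (RR ε T) P Q *
          (1 / (1 - p)) ^ (ovl P Q - ovB (RR ε T) P Q)) * Real.exp (2 * η * I.card) := by
          rw [Finset.sum_mul]
      _ ≤ ((n.factorial : ℝ) * Real.exp ((T : ℝ) ^ 3 + 1 + Real.log n +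
          ∑ v ∈ range (T + 2), κ v + n * (((∑ C ∈ I, C.card : ℕ) : ℝ) / n -
          ph (((∑ C ∈ I, C.card : ℕ) : ℝ) / n))) *
          ∏ C ∈ I, FF p n T (RR ε T) κ C.card) * Real.exp (2 * η * I.card) :=
          mul_le_mul_of_nonneg_right h2 (Real.exp_pos _).le
      _ ≤ ((n.factorial : ℝ) * Real.exp ((T : ℝ) ^ 3 + 1 + Real.log n +
          ∑ v ∈ range (T + 2), κ v + X ^ 9) *
          ∏ C ∈ I, FF p n T (RR ε T) κ C.card) * Real.exp (2 * η * I.card) := by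
          apply mul_le_mul_of_nonneg_right _ (Real.exp_pos _).le
          apply mul_le_mul_of_nonneg_right _ (Finset.prod_nonneg (fun C _ => hF0 _))
          apply mul_le_mul_of_nonneg_left _ (by positivity)
          apply Real.exp_le_exp.2
          linarith
      _ = ((n.factorial : ℝ) * Real.exp ((T : ℝ) ^ 3 + 1 + Real.log n +
          ∑ v ∈ range (T + 2), κ v + X ^ 9)) *
          ∏ C ∈ I, (Real.exp (2 * η) * FF p n T (RR ε T) κ C.card) := by
          rw [Finset.prod_mul_distrib, Finset.prod_const, ← Real.exp_nat_mul]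
          rw [mul_comm (2 * η) (I.card : ℝ)]
          ring
  · refine le_trans (le_of_eq ?_) hR0
    apply Finset.sum_eq_zero
    intro Q hQ
    exfalso
    rw [Finset.mem_filter] at hQ
    have h2 := NR_ge (Q := Q) (R := RR ε T) hPT
    rw [hQ.2.1, hQ.2.2] at h2
    have h3 := hN.X5
    have h4 := hN.X6
    linarith

theorem hMNO : StOVN → StFBD → StFAC → StSIZ → StMNO := by
  intro hO hF hA hS p ε hp hp2 hε hε1
  have hp1 : p < 1 := by
    have : 0 < 1 / Real.exp 2 := by positivity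
    linarith
  obtain ⟨n1, h1⟩ := hO p ε hp hp2 hε hε1
  obtain ⟨n2, h2⟩ := hF p ε (ε / 4) 1 hp hp2 hε hε1 (by linarith)
  obtain ⟨n3, h3⟩ := hS p ε (ε / 4) 1 hp hp2 hε hε1 (by linarith)
  obtain ⟨n4, h4⟩ : ∃ n4 : ℕ, ∀ n : ℕ, n4 ≤ n → 100 ≤ (n : ℝ) ^ (ε / 4) := by
    have ht : Tendsto (fun n : ℕ => (n : ℝ) ^ (ε / 4)) atTop atTop :=
      (tendsto_rpow_atTop (by linarith)).comp tendsto_natCast_atTop_atTop
    have := ht.eventually_ge_atTop 100
    rw [eventually_atTop] at this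
    exact this
  refine ⟨max (max n1 n2) (max n3 n4), ?_⟩
  intro n T kT th η κ P hn hW hκ hκT hP hPT hkT hη0 hη1
  have hN1 : n1 ≤ n := le_trans (le_trans (le_max_left _ _) (le_max_left _ _)) hn
  have hN2 : n2 ≤ n := le_trans (le_trans (le_max_right _ _) (le_max_left _ _)) hn
  have hN3 : n3 ≤ n := le_trans (le_trans (le_max_left _ _) (le_max_right _ _)) hn
  have hN4 : n4 ≤ n := le_trans (le_trans (le_max_right _ _) (le_max_right _ _)) hn
  have hSz := h3 n T th hN3 hW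
  have hN := nu hε hε1 hW hSz (h4 n hN4)
  set X : ℝ := (n : ℝ) ^ (ε / 4) with hX
  have hn1 := hN.n1
  have hn0 : (0 : ℝ) < n := by exact_mod_cast (by omega : 0 < n)
  have hPn : P.card ≤ n := card_Pt_le hP
  obtain ⟨hf1, hf2⟩ := h2 n T th κ hN2 hW hκ
  have hF0 : ∀ c, 0 ≤ FF p n T (RR ε T) κ c := fun c => FF_nonneg hp1 n T _ hκ.nn c
  set a : ℝ := κ T / Real.exp (hv p n T) with ha
  have ha0 : 0 ≤ a := by
    have := hκ.nn T
    positivity
  have hkn : kT ≤ n := by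
    rw [← hkT]
    exact (Finset.card_filter_le _ _).trans hPn
  have hexp : 1 / Real.exp (hv p n T) ≤ (n : ℝ) ^ (-(1 + th) + ε / 4) := by
    have h5 := hSz.t5 T (by omega) (by omega)
    rw [abs_le] at h5
    rw [one_div, ← Real.exp_neg, Real.rpow_def_of_pos hn0]
    apply Real.exp_le_exp.2
    nlinarith [h5.1]
  have hκ2 : κ T ≤ 2 * n := by
    refine le_trans ?_ hκ.ss
    exact Finset.single_le_sum (f := κ) (fun v _ => hκ.nn v) (Finset.mem_range.2 (by omega))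
  have haA : (kT : ℝ) * a ≤ n * (2 * n) * (n : ℝ) ^ (-(1 + th) + ε / 4) := by
    have e1 : a = κ T * (1 / Real.exp (hv p n T)) := by rw [ha]; ring
    rw [e1, ← mul_assoc]
    apply mul_le_mul _ hexp (by positivity) (by positivity)
    exact mul_le_mul (by exact_mod_cast hkn) hκ2 (hκ.nn T) (by positivity)
  have hsum := sumFF (η := η) (X := X) (A := kT * a) (F := FF p n T (RR ε T) κ) (a := a) hN hPn hF0
    hPT hkT (fun c hc => by
      have h5 := hf1 c (by omega)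
      have h6 : min (T - c) 1 = 1 := by omega
      rw [h6] at h5
      push_cast at h5
      rwa [add_comm th 1] at h5) (hf2 hκT) rfl haA (by positivity) hη0 hη1
  have hm := main_sum (Pt (Fin n)) P (RR ε T)
    (fun Q => pw (gf κ) Q * (1 / (1 - p)) ^ ovl P Q *
      Real.exp (2 * η * (bigS (RR ε T) P Q).card))
    (fun Q => by
      have e1 := pw_nonneg (gf_nonneg hκ.nn) Q
      have e2 : 0 < 1 / (1 - p) := by
        have : 0 < 1 - p := by linarith
        positivity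
      positivity)
    ((n : ℝ) ^ (1 - th + ε))
    ((n.factorial : ℝ) * Real.exp ((T : ℝ) ^ 3 + 1 + Real.log n + ∑ v ∈ range (T + 2), κ v +
      X ^ 9))
    (fun C => Real.exp (2 * η) * FF p n T (RR ε T) κ C.card)
    (fun C => mul_nonneg (Real.exp_pos _).le (hF0 _)) (by positivity)
    (fun I hI hIm N => one hε hp hp1 hA hN hκ.nn hPT hI hIm (Pt (Fin n))
      (fun e1 e2 e3 => h1 n T N th (1 / (1 - p)) κ P I hN1 hW hκ hP
        (fun C hC => (hPT C hC).trans (Nat.le_succ T)) hI e1 e2 e3))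
  refine le_trans hm ?_
  have hlog : (n : ℝ) + 1 ≤ Real.exp (1 + Real.log n) := by
    rw [Real.exp_add, Real.exp_log hn0]
    have e1 : (2 : ℝ) ≤ Real.exp 1 := by
      have := Real.add_one_le_exp (1 : ℝ)
      linarith
    have e2 : (1 : ℝ) ≤ n := by exact_mod_cast hn1
    nlinarith
  have hX1 := hN.X1
  have hfin : (1 + Real.log n) + ((T : ℝ) ^ 3 + 1 + Real.log n + ∑ v ∈ range (T + 2), κ v +
      X ^ 9) + (kT * a + 2 + 8 * X ^ 5) ≤ ∑ v ∈ range (T + 2), κ v + kT * a + X ^ 12 := by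
    have e1 := hN.TX
    have e2 := hN.lX
    have hX0 : (1 : ℝ) ≤ X := by linarith
    have e3 : X ≤ X ^ 9 := by simpa using pow_le_pow_right₀ hX0 (show 1 ≤ 9 by norm_num)
    have e4 : X ^ 5 ≤ X ^ 9 := pow_le_pow_right₀ hX0 (show 5 ≤ 9 by norm_num)
    have e5 : 1000000 * X ^ 9 ≤ X ^ 12 := by
      have e6 : (100 : ℝ) ^ 3 ≤ X ^ 3 := pow_le_pow_left₀ (by norm_num) hX1 3
      have e7 : X ^ 12 = X ^ 3 * X ^ 9 := by ring
      rw [e7]
      apply mul_le_mul_of_nonneg_right _ (by positivity)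
      linarith
    linarith
  calc ((n : ℝ) + 1) * ((n.factorial : ℝ) * Real.exp ((T : ℝ) ^ 3 + 1 + Real.log n +
        ∑ v ∈ range (T + 2), κ v + X ^ 9)) *
        Real.exp (∑ C ∈ P, Real.exp (2 * η) * FF p n T (RR ε T) κ C.card)
      ≤ Real.exp (1 + Real.log n) * ((n.factorial : ℝ) * Real.exp ((T : ℝ) ^ 3 + 1 + Real.log n +
        ∑ v ∈ range (T + 2), κ v + X ^ 9)) * Real.exp (kT * a + 2 + 8 * X ^ 5) := by
        apply mul_le_mul _ (Real.exp_le_exp.2 hsum) (Real.exp_pos _).le (by positivity)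
        exact mul_le_mul_of_nonneg_right hlog (by positivity)
    _ = (n.factorial : ℝ) * Real.exp ((1 + Real.log n) + ((T : ℝ) ^ 3 + 1 + Real.log n +
        ∑ v ∈ range (T + 2), κ v + X ^ 9) + (kT * a + 2 + 8 * X ^ 5)) := by
        rw [Real.exp_add (1 + Real.log n + _), Real.exp_add (1 + Real.log n)]
        ring
    _ ≤ (n.factorial : ℝ) * Real.exp (∑ v ∈ range (T + 2), κ v + kT * a + X ^ 12) := by
        apply mul_le_mul_of_nonneg_left _ (by positivity)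
        exact Real.exp_le_exp.2 hfin
    _ = _ := by
        rw [← hN.X12, ha, mul_div_assoc]

end Pool.Agent.Helper37.UX
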